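import Pool.Agent.helper73.ASU.Spec

set_option autoImplicit false

namespace Pool.Agent.ASU

open Finset

theorem SQ4_rot (n : ℕ) (x : Fin n) : ((finRotate n x : Fin n) : ℕ) = ((x : ℕ) + 1) % n := by
  rcases n with _ | m
  · exact x.elim0
  · rw [finRotate_apply, Fin.val_add, Fin.val_one', Nat.add_mod_mod]

/-- the interleaved word -/
def SQ4_v {k : ℕ} (a b : Fin k → ℕ) : Fin (k * 2) → ℕ := fun x =>
  if (x : ℕ) % 2 = 0 then a ⟨(x : ℕ) / 2, Nat.div_lt_of_lt_mul (by rw [Nat.mul_comm 2 k]; exact x.2)⟩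
  else b ⟨(x : ℕ) / 2, Nat.div_lt_of_lt_mul (by rw [Nat.mul_comm 2 k]; exact x.2)⟩

theorem SQ4_v0 {k : ℕ} (a b : Fin k → ℕ) (x : Fin (k * 2)) (i : Fin k) (h : (x : ℕ) = 2 * i) : SQ4_v a b x = a i := by
  unfold SQ4_v
  rw [if_pos (by omega)]
  congr 1
  apply Fin.ext
  change (x : ℕ) / 2 = i
  omega

theorem SQ4_v1 {k : ℕ} (a b : Fin k → ℕ) (x : Fin (k * 2)) (i : Fin k) (h : (x : ℕ) = 1 + 2 * i) :
    SQ4_v a b x = b i := by
  unfold SQ4_v
  rw [if_neg (by omega)]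
  congr 1
  apply Fin.ext
  change (x : ℕ) / 2 = i
  omega

theorem SQ4_prod {k : ℕ} (a b : Fin k → ℕ) :
    ∏ j, dst (SQ4_v a b j) (rot (SQ4_v a b) j) = (DD a b).natAbs := by
  unfold DD
  have h0 : (∏ i, (((a i : ℤ) - b i) * (((rot a i : ℕ) : ℤ) - b i))).natAbs =
      ∏ i, (((a i : ℤ) - b i) * (((rot a i : ℕ) : ℤ) - b i)).natAbs :=
    map_prod Int.natAbsHom _ _
  rw [h0, ← (finProdFinEquiv (m := k) (n := 2)).prod_comp, Fintype.prod_prod_type]
  refine Finset.prod_congr rfl fun i _ => ?_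
  rw [Fin.prod_univ_two, Int.natAbs_mul]
  have hk : 0 < k := i.pos
  have e0 : ((finProdFinEquiv ((i, 0) : Fin k × Fin 2) : Fin (k * 2)) : ℕ) = 2 * i := by
    rw [finProdFinEquiv_apply_val]
    simp
  have e1 : ((finProdFinEquiv ((i, 1) : Fin k × Fin 2) : Fin (k * 2)) : ℕ) = 1 + 2 * i := by
    rw [finProdFinEquiv_apply_val]
    simp
  have hi := i.2
  have v0 : SQ4_v a b (finProdFinEquiv ((i, 0) : Fin k × Fin 2)) = a i := SQ4_v0 a b _ i e0
  have v1 : SQ4_v a b (finProdFinEquiv ((i, 1) : Fin k × Fin 2)) = b i := SQ4_v1 a b _ i e1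
  have r0 : rot (SQ4_v a b) (finProdFinEquiv ((i, 0) : Fin k × Fin 2)) = b i := by
    unfold rot
    apply SQ4_v1
    rw [SQ4_rot, e0, Nat.mod_eq_of_lt (by omega)]
    omega
  have r1 : rot (SQ4_v a b) (finProdFinEquiv ((i, 1) : Fin k × Fin 2)) = rot a i := by
    unfold rot
    apply SQ4_v0
    rw [SQ4_rot, SQ4_rot, e1]
    rcases Nat.lt_or_ge ((i : ℕ) + 1) k with h | h
    · rw [Nat.mod_eq_of_lt (by omega), Nat.mod_eq_of_lt h]
      omega
    · have h1 : (i : ℕ) + 1 = k := by omega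
      rw [h1, Nat.mod_self, show 1 + 2 * (i : ℕ) + 1 = k * 2 by omega, Nat.mod_self]
  rw [v0, v1, r0, r1]
  unfold dst
  have h2 : ((b i : ℤ) - (rot a i : ℕ)).natAbs = (((rot a i : ℕ) : ℤ) - b i).natAbs := by
    rw [← Int.natAbs_neg, neg_sub]
  rw [h2]

theorem SQ4_inj {k : ℕ} {a b a' b' : Fin k → ℕ} (h : SQ4_v a b = SQ4_v a' b') : a = a' ∧ b = b' := by
  constructor
  · funext i
    have h1 := congrFun h ⟨2 * i, by have := i.2; omega⟩
    rw [SQ4_v0 a b _ i rfl, SQ4_v0 a' b' _ i rfl] at h1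
    exact h1
  · funext i
    have h1 := congrFun h ⟨1 + 2 * i, by have := i.2; omega⟩
    rw [SQ4_v1 a b _ i rfl, SQ4_v1 a' b' _ i rfl] at h1
    exact h1

theorem SQ4 (hSQ3 : SQ3_stmt) : SQ4_stmt := by
  classical
  intro k hk ε hε
  obtain ⟨C, hC, H⟩ := hSQ3 (k * 2) (by omega) ε hε
  refine ⟨C, hC, ?_⟩
  intro N hN S hS
  have hinj : Function.Injective fun v : (Fin k → ℕ) × (Fin k → ℕ) => SQ4_v v.1 v.2 := by
    rintro ⟨a, b⟩ ⟨a', b'⟩ h
    exact Prod.ext (SQ4_inj h).1 (SQ4_inj h).2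
  have h1 := H N hN (S.image fun v => SQ4_v v.1 v.2) (by
    intro v hv
    obtain ⟨⟨a, b⟩, hab, rfl⟩ := Finset.mem_image.mp hv
    obtain ⟨ha, hb, hD, hsq⟩ := hS _ hab
    refine ⟨?_, ?_, ?_⟩
    · intro j
      change SQ4_v a b j < N
      unfold SQ4_v
      split_ifs
      · exact ha _
      · exact hb _
    · rw [SQ4_prod]
      exact Int.natAbs_ne_zero.mpr hD
    · rw [SQ4_prod]
      obtain ⟨r, hr⟩ := hsq
      refine ⟨r.natAbs, ?_⟩
      change (DD a b).natAbs = _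
      have hr' : DD a b = r * r := hr
      rw [hr', Int.natAbs_mul])
  rw [Finset.card_image_of_injective _ hinj] at h1
  have e : (1 : ℝ) + ((k * 2 : ℕ) : ℝ) / 2 + ε = (k : ℝ) + 1 + ε := by
    push_cast
    ring
  rwa [e] at h1

end Pool.Agent.ASU
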